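import Pool.Agent.H97.RK.Targets

/-!
# MP_c62aed_lc, board rks_modules: row ASK (one more variable is asked)
-/

set_option autoImplicit false

namespace Pool.Agent.H2.RKS

open Finset Pool.Agent.H97.RK

/-- `out` is antitone -/
theorem out_anti {n k m : ℕ} (F : Fml n k m) (c : Fin m) {A B : Finset (Fin n)} (h : A ⊆ B) :
    out F c B ≤ out F c A := by
  unfold out
  refine card_le_card fun i hi => ?_
  rw [mem_filter] at hi ⊢
  exact ⟨hi.1, fun h1 => hi.2 (h h1)⟩

theorem pf_ASK (hFIX : T_FIX) (hCLO : T_CLO) : T_ASK := by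
  intro n k m F j t d e s₀ hP y A W J v h hv hA
  have hc1 : (insert v A).card = A.card + 1 := card_insert_of_notMem hv
  obtain ⟨W', J', hW, hJ, h1, h2, h3, h4, h5, h6⟩ := hCLO n k m F j t d e hP.x2 hP.je y
    (insert v A) W J (fun c hc i => by
      have := h.mem c hc i
      rw [mem_union] at this ⊢
      exact this.imp (fun h0 => mem_insert_of_mem h0) id) (fun c hc i hi => by
      rw [mem_sdiff] at hi
      have h0 := h.mem c hc i
      rw [mem_union] at h0
      exact h.alv c hc i (mem_sdiff.2 ⟨h0.resolve_right hi.2, hi.2⟩)) h.crd h.lt (by omega)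
  have hcS : (J' \ J).card + J.card = J'.card := card_sdiff_add_card_eq_card hJ
  have hts := hP.ts
  obtain ⟨y', hy1, hy2, hy3⟩ := hFIX n k m F j s₀ hP.x1 y (insert v A ∪ W) v (J' \ J) (by omega)
    (fun c hc => by
      rw [mem_sdiff] at hc
      have h7 : Al F y A c := fun i hi => h5 c hc.1 hc.2 i (mem_insert_of_mem hi)
      refine lt_of_lt_of_le (h.out c hc.2 h7) (out_anti F c fun u hu => ?_)
      rw [mem_erase, mem_union, mem_insert] at hu
      rw [mem_union]
      rcases hu with ⟨hu1, (hu2 | hu2) | hu2⟩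
      · exact absurd hu2 hu1
      · exact Or.inl hu2
      · exact Or.inr hu2)
  have hy4 : ∀ u ∈ insert v A, y' u = y u := fun u hu => hy1 u (mem_union_left _ hu)
  refine ⟨y', W', J', ⟨fun c hc => ?_, h1, fun c hc i hi => ?_, fun c hc ha => ?_, h3, h4⟩, hy4,
    by omega⟩
  · by_cases hcJ : c ∈ J
    · obtain ⟨i, hi1, hi2⟩ := h.sat c hcJ
      have hi3 : (F c i).1 ∈ insert v A ∪ W := by
        rw [mem_union] at hi1 ⊢
        exact hi1.imp (fun h0 => mem_insert_of_mem h0) id
      exact ⟨i, h1 c hc i, by rw [hy1 _ hi3]; exact hi2⟩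
    · obtain ⟨i, -, hi2⟩ := hy2 c (mem_sdiff.2 ⟨hc, hcJ⟩)
      exact ⟨i, h1 c hc i, hi2⟩
  · rw [hy4 _ (mem_sdiff.1 hi).1]
    exact h2 c hc i hi
  · refine h6 c hc fun i hi => ?_
    rw [← hy4 _ hi]
    exact ha i hi

end Pool.Agent.H2.RKS
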